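import Pool.Agent.X312.FK.CompDefs

/-!
# Families of spaces of cohomology classes: definitions
-/

open CategoryTheory AlgebraicGeometry

universe u v

namespace Pool.Agent.X312.FM

open Pool.Agent.H914 Pool.Agent.H914.VarClass Pool.Agent.H914.VarClass.Obj
  Pool.Agent.H914.WeilCohomology Pool.Agent.X312.FK

variable {k : Type u} [Field k] {𝒱 : VarClass k} {ops : CycleOps 𝒱}

/-- A family of spaces of cohomology classes: a subspace of `H(X)` for each variety `X`. -/
abbrev Family (W : WeilCohomology.{u, v} ops) := ∀ X : 𝒱.Obj, Submodule W.K (W.H X)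

variable {W : WeilCohomology.{u, v} ops}

/-- The class `c` belongs to the family `C`. -/
def Has (C : Family W) {X : 𝒱.Obj} (c : W.H X) : Prop := c ∈ C X

/-- The class `c` is a sum of classes of even degrees. -/
def IsEven {X : 𝒱.Obj} (c : W.H X) : Prop := c ∈ ⨆ j : ℕ, W.gr X (2 * j)

/-- The classes of the family `C` are sums of classes of even degrees, they contain the unit classes,
and they are stable under products, pull-backs and push-forwards. -/
structure IsRingFamily (C : Family W) : Prop where
  even : ∀ {X : 𝒱.Obj} {c : W.H X}, Has C c → IsEven c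
  one : ∀ X : 𝒱.Obj, Has C (unitClass W X)
  mul : ∀ {X : 𝒱.Obj} {c d : W.H X}, Has C c → Has C d → Has C (cup W c d)
  pull : ∀ {X Y : 𝒱.Obj} (f : X ⟶ Y) {c : W.H Y}, Has C c → Has C (pb W f c)
  push : ∀ {X Y : 𝒱.Obj} (f : X ⟶ Y) {c : W.H X}, Has C c → Has C (pf W f c)

/-- The classes of the family `N` are stable under pull-backs, push-forwards and products with the
classes of the family `C`. -/
structure IsModuleFamily (C N : Family W) : Prop where
  mul : ∀ {X : 𝒱.Obj} {c d : W.H X}, Has N c → Has C d → Has N (cup W c d)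
  pull : ∀ {X Y : 𝒱.Obj} (f : X ⟶ Y) {c : W.H Y}, Has N c → Has N (pb W f c)
  push : ∀ {X Y : 𝒱.Obj} (f : X ⟶ Y) {c : W.H X}, Has N c → Has N (pf W f c)

/-- The family `A` is contained in the family `B`. -/
def IsSubfamily (A B : Family W) : Prop := ∀ {X : 𝒱.Obj} {c : W.H X}, Has A c → Has B c

/-- The classes of the families `A` and `B` on `X` are the same. -/
def Agree (A B : Family W) (X : 𝒱.Obj) : Prop := ∀ c : W.H X, Has A c ↔ Has B c

/-- The number `tr (x y)`. -/
def trProd (W : WeilCohomology.{u, v} ops) {X : 𝒱.Obj} (x y : W.H X) : W.K := W.tr X (x * y)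

/-- The pairing `(x, y) ↦ tr (x y)` on the classes of the family `C` on `X` is nondegenerate. -/
def IsNondeg (C : Family W) (X : 𝒱.Obj) : Prop :=
  ∀ x : W.H X, Has C x → (∀ y : W.H X, Has C y → trProd W x y = 0) → x = 0

/-- The dimension of the space `N X`. -/
noncomputable def dimOn (N : Family W) (X : 𝒱.Obj) : ℕ := Module.finrank W.K (N X)

/-- The number `(1 - 4 (m + 3) b ^ (m + 5) log (n + 1) / n) ρ`, with `m` and `n` replaced by `m + 1` and
`n + 1`. -/
noncomputable def gapBound (b ρ m n : ℕ) : ℝ :=
  (1 - 4 * (m + 4) * (b : ℝ) ^ (m + 6) * Real.log (n + 2) / (n + 1)) * ρ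

end Pool.Agent.X312.FM
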