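import Mathlib.Algebra.Module.Submodule.Basic
import Pool.Agent.X312.FM.Defs

/-!
# Operators on the cohomology: definitions
-/

open CategoryTheory AlgebraicGeometry

universe u v

namespace Pool.Agent.X312.FM

open Pool.Agent.H914 Pool.Agent.H914.VarClass Pool.Agent.H914.VarClass.Obj
  Pool.Agent.H914.WeilCohomology Pool.Agent.X312.FK

variable {k : Type u} [Field k] {𝒱 : VarClass k} {ops : CycleOps 𝒱}
  {W : WeilCohomology.{u, v} ops}

/-- Operators `ρ_Z(g)`, `g ∈ G`, on the spaces `H(Z)`. -/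
abbrev Operators (W : WeilCohomology.{u, v} ops) (G : Type v) := ∀ Z : 𝒱.Obj, G → W.H Z → W.H Z

/-- The operators `ρ_Z(g)` are linear, they fix the unit classes, and they are compatible with
pull-backs, push-forwards and products with the classes of the family `C`. -/
structure IsCompatible (C : Family W) {G : Type v} (ρ : Operators W G) : Prop where
  lin : ∀ (Z : 𝒱.Obj) (g : G), IsLinearMap W.K (ρ Z g)
  one : ∀ (Z : 𝒱.Obj) (g : G), ρ Z g (unitClass W Z) = unitClass W Z
  mul : ∀ (Z : 𝒱.Obj) (g : G) (x c : W.H Z), Has C c → ρ Z g (cup W x c) = cup W (ρ Z g x) c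
  pull : ∀ {Z Z' : 𝒱.Obj} (f : Z ⟶ Z') (g : G) (x : W.H Z'),
    ρ Z g (pb W f x) = pb W f (ρ Z' g x)
  push : ∀ {Z Z' : 𝒱.Obj} (f : Z ⟶ Z') (g : G) (x : W.H Z),
    ρ Z' g (pf W f x) = pf W f (ρ Z g x)

/-- The class `x` is invariant. -/
def IsInvariant {G : Type v} (ρ : Operators W G) {Z : 𝒱.Obj} (x : W.H Z) : Prop :=
  ∀ g : G, ρ Z g x = x

/-- The class `y` is a linear combination of classes `g x - x`. -/
def IsMoved {G : Type v} (ρ : Operators W G) {Z : 𝒱.Obj} (y : W.H Z) : Prop :=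
  y ∈ Submodule.span W.K {y | ∃ (g : G) (x : W.H Z), y = ρ Z g x - x}

/-- There are at least `r` elements with the property `S`, linearly independent modulo the
subspace `N`. -/
def IndepMod {K V : Type v} [Field K] [AddCommGroup V] [Module K V] (S : V → Prop)
    (N : Submodule K V) (r : ℝ) : Prop :=
  ∃ (n : ℕ) (a : Fin n → V), r ≤ n ∧ LinearIndependent K (fun i => N.mkQ (a i)) ∧ ∀ i, S (a i)

end Pool.Agent.X312.FM
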