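import Pool.Agent.X312.FM.Main
import Pool.Agent.X312.FM.GrpDefs
import Pool.Agent.X312.FN.Law

/-!
# Operators on the cohomology: gap laws; chains
-/

open CategoryTheory AlgebraicGeometry

universe u v

namespace Pool.Agent.X312.FM

open Module
open Pool.Agent.H914 Pool.Agent.H914.VarClass Pool.Agent.H914.VarClass.Obj
  Pool.Agent.H914.WeilCohomology Pool.Agent.Y133.Half Pool.Agent.Y133.Half.Sys
  Pool.Agent.X312.RL Pool.Agent.X312.FK

variable {k : Type u} [Field k] {𝒱 : VarClass k} {ops : CycleOps 𝒱}
  {W : WeilCohomology.{u, v} ops} {C : Family W} {G : Type v} {ρ : Operators W G}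

/-- Dimensions of two nested subspaces. -/
lemma indep_of_finrank {Z : 𝒱.Obj} {N' N : Submodule W.K (W.H Z)} (hle : N' ≤ N) {x : ℝ}
    (h : finrank W.K N' + x ≤ finrank W.K N) : IndepMod (· ∈ N) N' x := by
  have key : x ≤ finrank W.K (N.map N'.mkQ) := by
    let f : N →ₗ[W.K] W.H Z ⧸ N' := N'.mkQ ∘ₗ N.subtype
    have h1 := f.finrank_range_add_finrank_ker
    have h2 : LinearMap.range f = N.map N'.mkQ := by
      rw [LinearMap.range_comp, Submodule.range_subtype]
    have h3 : finrank W.K (LinearMap.ker f) = finrank W.K N' := by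
      have h4 : (LinearMap.ker f).map N.subtype = N' := by
        ext x
        constructor
        · rintro ⟨y, hy, rfl⟩
          exact (Submodule.Quotient.mk_eq_zero _).1 (LinearMap.mem_ker.1 hy)
        · intro hx
          exact ⟨⟨x, hle hx⟩, LinearMap.mem_ker.2 ((Submodule.Quotient.mk_eq_zero _).2 hx), rfl⟩
      conv_rhs => rw [← h4]
      exact (Submodule.equivMapOfInjective _ (Submodule.injective_subtype _) _).finrank_eq
    rw [h2, h3] at h1
    have h5 : (finrank W.K (N.map N'.mkQ) : ℝ) + finrank W.K N' = finrank W.K N := by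
      exact_mod_cast h1
    linarith
  obtain ⟨r, a, h6, h7, h8⟩ := Pool.Agent.X312.FN.indep_of N' N (fun _ => key)
  rw [Submodule.span_eq] at h7
  exact ⟨r, a, h6, h7, h8⟩

/-- The invariants. -/
def invF (hρ : IsCompatible C ρ) : Family W := fun Z =>
  { carrier := {x | IsInvariant ρ x}
    zero_mem' := fun g => (IsLinearMap.mk' _ (hρ.lin Z g)).map_zero
    add_mem' := fun {a b} ha hb g => by
      rw [(hρ.lin Z g).map_add, ha g, hb g]
    smul_mem' := fun t a ha g => by
      rw [(hρ.lin Z g).map_smul, ha g] }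

lemma invF_module (hρ : IsCompatible C ρ) : IsModuleFamily C (invF hρ) where
  mul {X c d} hc hd g := by
    have hc' : IsInvariant ρ c := hc
    rw [hρ.mul X g c d hd, hc' g]
  pull {X Y} f c hc g := by
    have hc' : IsInvariant ρ c := hc
    rw [hρ.pull, hc' g]
  push {X Y} f c hc g := by
    have hc' : IsInvariant ρ c := hc
    rw [hρ.push, hc' g]

/-- The moved classes. -/
def movedF (ρ : Operators W G) : Family W := fun Z =>
  Submodule.span W.K {y | ∃ (g : G) (x : W.H Z), y = ρ Z g x - x}

lemma moved_module (hρ : IsCompatible C ρ) : IsModuleFamily C (movedF ρ) where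
  mul {X c d} hc hd := by
    refine Submodule.span_induction (p := fun c _ => c * d ∈ movedF ρ X) ?_ ?_ ?_ ?_ hc
    · rintro _ ⟨g, x, rfl⟩
      refine Submodule.subset_span ⟨g, cup W x d, ?_⟩
      rw [hρ.mul X g x d hd]
      exact sub_mul _ _ _
    · rw [zero_mul]; exact Submodule.zero_mem _
    · intro x y _ _ hx hy; rw [add_mul]; exact Submodule.add_mem _ hx hy
    · intro t x _ hx; rw [smul_mul_assoc]; exact Submodule.smul_mem _ t hx
  pull {X Y} f c hc := by
    refine Submodule.span_induction (p := fun c _ => W.map f c ∈ movedF ρ X) ?_ ?_ ?_ ?_ hc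
    · rintro _ ⟨g, x, rfl⟩
      refine Submodule.subset_span ⟨g, pb W f x, ?_⟩
      rw [hρ.pull]
      exact map_sub _ _ _
    · rw [map_zero]; exact Submodule.zero_mem _
    · intro x y _ _ hx hy; rw [map_add]; exact Submodule.add_mem _ hx hy
    · intro t x _ hx; rw [map_smul]; exact Submodule.smul_mem _ t hx
  push {X Y} f c hc := by
    refine Submodule.span_induction (p := fun c _ => W.push f c ∈ movedF ρ Y) ?_ ?_ ?_ ?_ hc
    · rintro _ ⟨g, x, rfl⟩
      refine Submodule.subset_span ⟨g, pf W f x, ?_⟩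
      rw [hρ.push]
      exact map_sub _ _ _
    · rw [map_zero]; exact Submodule.zero_mem _
    · intro x y _ _ hx hy; rw [map_add]; exact Submodule.add_mem _ hx hy
    · intro t x _ hx; rw [map_smul]; exact Submodule.smul_mem _ t hx

/-- The family of the zero spaces. -/
def botF (W : WeilCohomology.{u, v} ops) : Family W := fun _ => ⊥

lemma bot_module : IsModuleFamily C (botF W) where
  mul {X c d} hc _ := by
    have h : c = 0 := (Submodule.mem_bot W.K).1 hc
    have h1 : cup W c d = 0 := by rw [h]; exact zero_mul d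
    rw [h1]; exact Submodule.zero_mem _
  pull {X Y} f c hc := by
    have h : c = 0 := (Submodule.mem_bot W.K).1 hc
    have h1 : pb W f c = 0 := by rw [h]; exact map_zero _
    rw [h1]; exact Submodule.zero_mem _
  push {X Y} f c hc := by
    have h : c = 0 := (Submodule.mem_bot W.K).1 hc
    have h1 : pf W f c = 0 := by rw [h]; exact map_zero _
    rw [h1]; exact Submodule.zero_mem _

lemma le_invF (hρ : IsCompatible C ρ) (Z : 𝒱.Obj) : C Z ≤ invF hρ Z := by
  intro c hc g
  have h1 : cup W (unitClass W Z) c = c := one_mul c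
  have h := hρ.mul Z g (unitClass W Z) c hc
  rwa [h1, hρ.one, h1] at h

/-- **The law for the invariants of a group.** -/
theorem inv_law (hC : IsRingFamily C) (hρ : IsCompatible C ρ) (X Y : 𝒱.Obj)
    (hX : ∀ n, IsNondeg C (pw X n)) (m : ℕ) :
    (∀ x : W.H (Y.prod (pw X m)), IsInvariant ρ x → Has C x) ∨
    ∀ n : ℕ, IndepMod (fun x : W.H (Y.prod (pw X n)) => IsInvariant ρ x) (C _)
      (gapBound (finrank W.K (W.H X)) (dimOn C (pw X n)) m n) := by
  by_cases h : C (Y.prod (pw X m)) = invF hρ (Y.prod (pw X m))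
  · left
    intro x hx
    unfold Has
    rw [h]
    exact hx
  · right
    intro n
    exact indep_of_finrank (N := invF hρ _) (le_invF hρ _)
      (fam_law hC (self_module hC) (invF_module hρ) (le_invF hρ) X Y hX m h n)

/-- **The law for the map from the invariants to the coinvariants.** -/
theorem coinv_law (hC : IsRingFamily C) (hρ : IsCompatible C ρ) (X Y : 𝒱.Obj)
    (hX : ∀ n, IsNondeg C (pw X n)) (m : ℕ) :
    (∀ x : W.H (Y.prod (pw X m)), IsInvariant ρ x → IsMoved ρ x → x = 0) ∨
    ∀ n : ℕ, IndepMod (fun x : W.H (Y.prod (pw X n)) => IsInvariant ρ x ∧ IsMoved ρ x)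
      (⊥ : Submodule W.K _)
      (gapBound (finrank W.K (W.H X)) (dimOn C (pw X n)) m n) := by
  let N : Family W := infFam (invF hρ) (movedF ρ)
  have hN : IsModuleFamily C N := inf_module (invF_module hρ) (moved_module hρ)
  by_cases h : (⊥ : Submodule W.K (W.H (Y.prod (pw X m)))) = N (Y.prod (pw X m))
  · left
    intro x hx hx'
    have h1 : x ∈ N (Y.prod (pw X m)) := ⟨hx, hx'⟩
    rw [← h] at h1
    exact (Submodule.mem_bot W.K).1 h1
  · right
    intro n
    exact indep_of_finrank (N := N _) bot_le
      (fam_law hC bot_module hN (fun Z => bot_le) X Y hX m h n)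

/-- **The chain law for families.** -/
theorem chain_law (hC : IsRingFamily C) {A : ℕ → Family W} (hA : ∀ i, IsModuleFamily C (A i))
    (hle : ∀ i, IsSubfamily (A i) (A (i + 1))) (X Y : 𝒱.Obj) (hX : ∀ n, IsNondeg C (pw X n))
    (m s n : ℕ) :
    dimOn (A 0) (Y.prod (pw X n)) +
      Set.ncard {i | i < s ∧ ¬ Agree (A i) (A (i + 1)) (Y.prod (pw X m))} *
        gapBound (finrank W.K (W.H X)) (dimOn C (pw X n)) m n ≤
      dimOn (A s) (Y.prod (pw X n)) := by
  classical
  have hcard : ∀ s, Set.ncard {i | i < s ∧ ¬ Agree (A i) (A (i + 1)) (Y.prod (pw X m))} =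
      ((Finset.range s).filter
        (fun i => ¬ Agree (A i) (A (i + 1)) (Y.prod (pw X m)))).card := by
    intro s
    rw [← Set.ncard_coe_finset]
    congr 1
    ext i
    simp
  rw [hcard]
  induction s with
  | zero => simp
  | succ s ih =>
    rw [Finset.range_add_one, Finset.filter_insert]
    by_cases h : ¬ Agree (A s) (A (s + 1)) (Y.prod (pw X m))
    · rw [if_pos h, Finset.card_insert_of_notMem (by simp)]
      have h1 := fam_law hC (hA s) (hA (s + 1)) (le_of_sub (hle s)) X Y hX m
        (fun h' => h (agree_iff.2 h')) n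
      push_cast
      linarith
    · rw [if_neg h]
      have h1 : dimOn (A s) (Y.prod (pw X n)) ≤ dimOn (A (s + 1)) (Y.prod (pw X n)) :=
        Submodule.finrank_mono (le_of_sub (hle s) _)
      have h2 : (dimOn (A s) (Y.prod (pw X n)) : ℝ) ≤ dimOn (A (s + 1)) (Y.prod (pw X n)) := by
        exact_mod_cast h1
      linarith

end Pool.Agent.X312.FM
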