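import Mathlib.Data.Real.Basic

/-!
# Truth values as numbers
-/

namespace Pool.Agent.X312.FM

open Classical in
/-- The number which is `1` if `P` is true and `0` if `P` is false. -/
noncomputable def oneIf (P : Prop) : ℝ := if P then 1 else 0

end Pool.Agent.X312.FM
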