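import Pool.Agent.X312.FM.Rat

/-!
# The equality of two families of classes in an irreducible motive
-/

open CategoryTheory AlgebraicGeometry

universe u v

namespace Pool.Agent.X312.FM

open Module
open Pool.Agent.H914 Pool.Agent.H914.VarClass Pool.Agent.H914.VarClass.Obj
  Pool.Agent.H914.WeilCohomology Pool.Agent.Y133.Half
open Pool.Agent.X312.FK (composite IrreducibleIn)
open Pool.Agent.X312.FC (corrRank rankBound irr_fun_law)
open Pool.Agent.X312.MR (hData hData_isFunctor)

variable {k : Type u} [Field k] {𝒱 : VarClass k} {ops : CycleOps 𝒱}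
  {W : WeilCohomology.{u, v} ops} {C A B : Family W}

/-- **The gap law for the equality of two families of classes in an irreducible motive.** -/
theorem irr_eq_law (hC : IsRingFamily C) (hA : IsModuleFamily C A) (hB : IsModuleFamily C B)
    (X : 𝒱.Obj) (hX : ∀ n, IsNondeg C (pw X n)) {m : ℕ} {e : W.H ((pw X m).prod (pw X m))}
    (he : Has C e) (hee : composite W e e = e) (hirr : IrreducibleIn (Has C) e) :
    (∀ x : W.H (pw X m), (Has A x → Has B (W.corr e x)) ∧ (Has B x → Has A (W.corr e x))) ∨
    ∀ n : ℕ, finrank W.K (A (pw X n) ⊓ B (pw X n) : Submodule W.K (W.H (pw X n))) +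
      rankBound (corrRank e) (finrank W.K (W.H X)) (dimOn C (pw X n)) m n ≤
      finrank W.K (A (pw X n) ⊔ B (pw X n) : Submodule W.K (W.H (pw X n))) := by
  rcases irr_fun_law hC (hData_isFunctor hC) (mod_stable hC (inf_module hA hB))
    (mod_stable hC (sup_module hA hB)) X hX he hee hirr with h | h
  · left
    intro x
    constructor
    · intro hx
      have h1 : x ∈ supFam A B (pw X m) := (le_sup_left : A (pw X m) ≤ A (pw X m) ⊔ B (pw X m)) hx
      exact (h x h1).2
    · intro hx
      have h1 : x ∈ supFam A B (pw X m) := (le_sup_right : B (pw X m) ≤ A (pw X m) ⊔ B (pw X m)) hx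
      exact (h x h1).1
  · right
    intro n
    exact dim_of_indep inf_le_sup (h n)

end Pool.Agent.X312.FM
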