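import Mathlib.RingTheory.Adjoin.Basic
import Pool.Agent.X312.FM.GrpDefs

/-!
# Lefschetz classes, algebraic classes, Tate classes
-/

open CategoryTheory AlgebraicGeometry

universe u v

namespace Pool.Agent.X312.FM

open Pool.Agent.H914 Pool.Agent.H914.VarClass Pool.Agent.H914.VarClass.Obj
  Pool.Agent.H914.WeilCohomology Pool.Agent.X312.FK

/-- The subspace which is the subalgebra generated by the set `S`. -/
def genAlg (K : Type v) {A : Type v} [Field K] [Ring A] [Algebra K A] (S : Set A) : Submodule K A :=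
  Subalgebra.toSubmodule (Algebra.adjoin K S)

variable {k : Type u} [Field k] {𝒱 : VarClass k} {ops : CycleOps 𝒱}

/-- The Lefschetz classes: the subalgebra generated by the classes of divisors. -/
def lef (W : WeilCohomology.{u, v} ops) : Family W := fun Z =>
  genAlg W.K {x | ∃ z : Z.Cycles, Z.IsCyc 1 z ∧ x = W.cl Z z}

/-- The algebraic classes: the space generated by the classes of algebraic cycles. -/
def alg (W : WeilCohomology.{u, v} ops) : Family W := fun Z =>
  Submodule.span W.K {x | ∃ (j : ℕ) (z : Z.Cycles), Z.IsCyc j z ∧ x = W.cl Z z}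

variable {W : WeilCohomology.{u, v} ops}

/-- The operators `F` on the spaces `H(Z)` (in the intended use the Frobenius operators for varieties
over the algebraic closure of a finite field, on `⊕_j H^(2 j)(Z)(j)`, for some models over finite
fields) are linear and multiplicative, and some power of `F` commutes with a given pull-back, with a
given push-forward, and fixes the class of a given algebraic cycle. -/
structure IsFrob (F : ∀ Z : 𝒱.Obj, W.H Z → W.H Z) : Prop where
  lin : ∀ Z : 𝒱.Obj, IsLinearMap W.K (F Z)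
  mul : ∀ (Z : 𝒱.Obj) (x y : W.H Z), F Z (cup W x y) = cup W (F Z x) (F Z y)
  pull : ∀ {Z Z' : 𝒱.Obj} (f : Z ⟶ Z'),
    ∃ r > 0, ∀ x : W.H Z', (F Z)^[r] (pb W f x) = pb W f ((F Z')^[r] x)
  push : ∀ {Z Z' : 𝒱.Obj} (f : Z ⟶ Z'),
    ∃ r > 0, ∀ x : W.H Z, (F Z')^[r] (pf W f x) = pf W f ((F Z)^[r] x)
  cyc : ∀ {Z : 𝒱.Obj} {j : ℕ} {z : Z.Cycles}, Z.IsCyc j z → ∃ r > 0, (F Z)^[r] (W.cl Z z) = W.cl Z z

/-- The class `x` is fixed by some power of `F`. -/
def IsTateClass (F : ∀ Z : 𝒱.Obj, W.H Z → W.H Z) {Z : 𝒱.Obj} (x : W.H Z) : Prop :=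
  ∃ r > 0, (F Z)^[r] x = x

end Pool.Agent.X312.FM
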