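import Pool.Agent.X312.FM.Grp
import Pool.Agent.X312.FM.LefDefs

/-!
# Lefschetz classes, algebraic classes, Tate classes: gap law
-/

open CategoryTheory AlgebraicGeometry

universe u v

namespace Pool.Agent.X312.FM

open Module
open Pool.Agent.H914 Pool.Agent.H914.VarClass Pool.Agent.H914.VarClass.Obj
  Pool.Agent.H914.WeilCohomology Pool.Agent.Y133.Half Pool.Agent.Y133.Half.Sys
  Pool.Agent.X312.RL Pool.Agent.X312.FK Pool.Agent.H281R3.HT Pool.Agent.W536.RR

variable {k : Type u} [Field k] {𝒱 : VarClass k} {ops : CycleOps 𝒱}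
  {W : WeilCohomology.{u, v} ops}

lemma alg_eq (Z : 𝒱.Obj) : alg W Z = algSpan W Z := by
  apply le_antisymm
  · refine Submodule.span_le.2 ?_
    rintro _ ⟨j, z, hz, rfl⟩
    exact cl_mem_algSpan hz
  · intro c hc
    refine algSpan_induction (p := fun c => c ∈ alg W Z) ?_ ?_ ?_ ?_ hc
    · exact Submodule.zero_mem _
    · intro a b ha hb; exact Submodule.add_mem _ ha hb
    · intro t a ha; exact Submodule.smul_mem _ _ ha
    · intro j z hz; exact Submodule.subset_span ⟨j, z, hz, rfl⟩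

lemma lef_le (Z : 𝒱.Obj) : lef W Z ≤ algSpan W Z := by
  intro c hc
  refine Algebra.adjoin_induction (p := fun c _ => c ∈ algSpan W Z) ?_ ?_ ?_ ?_ hc
  · rintro _ ⟨z, hz, rfl⟩
    exact cl_mem_algSpan hz
  · intro t
    rw [Algebra.algebraMap_eq_smul_one]
    exact Submodule.smul_mem _ _ one_mem_algSpan
  · intro a b _ _ ha hb
    exact Submodule.add_mem _ ha hb
  · intro a b _ _ ha hb
    exact algSpan_mul ha hb

lemma lef_mul {Z : 𝒱.Obj} {c d : W.H Z} (hc : c ∈ lef W Z) (hd : d ∈ lef W Z) :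
    c * d ∈ lef W Z :=
  Subalgebra.mul_mem _ hc hd

lemma lef_pull {Y Z : 𝒱.Obj} (f : Y ⟶ Z) {c : W.H Z} (hc : c ∈ lef W Z) :
    W.map f c ∈ lef W Y := by
  refine Algebra.adjoin_induction (p := fun c _ => W.map f c ∈ lef W Y) ?_ ?_ ?_ ?_ hc
  · rintro _ ⟨z, hz, rfl⟩
    refine Algebra.subset_adjoin ⟨ops.pull f z, ops.pull_mem f hz, ?_⟩
    rw [W.cl_pull]
  · intro t
    rw [AlgHom.commutes]
    exact Subalgebra.algebraMap_mem _ t
  · intro a b _ _ ha hb
    rw [map_add]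
    exact Submodule.add_mem _ ha hb
  · intro a b _ _ ha hb
    rw [map_mul]
    exact lef_mul ha hb

lemma even_of_alg {Z : 𝒱.Obj} {c : W.H Z} (hc : c ∈ algSpan W Z) : IsEven c := by
  refine algSpan_induction (p := fun c => IsEven c) ?_ ?_ ?_ ?_ hc
  · exact Submodule.zero_mem _
  · intro a b ha hb; exact Submodule.add_mem _ ha hb
  · intro t a ha; exact Submodule.smul_mem _ _ ha
  · intro j z hz
    exact (le_iSup (fun j : ℕ => W.gr Z (2 * j)) j) (W.cl_mem hz)

lemma lef_ring (hpush : ∀ {Y Z : 𝒱.Obj} (f : Y ⟶ Z) (c : W.H Y), Has (lef W) c →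
    Has (lef W) (pf W f c)) : IsRingFamily (lef W) where
  even {X c} hc := even_of_alg (lef_le X hc)
  one X := Subalgebra.one_mem _
  mul hc hd := lef_mul hc hd
  pull f _ hc := lef_pull f hc
  push f c hc := hpush f c hc

lemma alg_module : IsModuleFamily (lef W) (alg W) where
  mul {X c d} hc hd := by
    have h1 : c ∈ alg W X := hc
    have h2 : d ∈ algSpan W X := lef_le X hd
    change c * d ∈ alg W X
    rw [alg_eq] at h1 ⊢
    exact algSpan_mul h1 h2
  pull {X Y} f c hc := by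
    have h1 : c ∈ alg W Y := hc
    change W.map f c ∈ alg W X
    rw [alg_eq] at h1 ⊢
    exact algSpan_map f h1
  push {X Y} f c hc := by
    have h1 : c ∈ alg W X := hc
    change W.push f c ∈ alg W Y
    rw [alg_eq] at h1 ⊢
    exact algSpan_push f h1

section Frob

variable {F : ∀ Z : 𝒱.Obj, W.H Z → W.H Z}

/-- The operator as a linear map. -/
def frobLin (hF : IsFrob F) (Z : 𝒱.Obj) : W.H Z →ₗ[W.K] W.H Z := IsLinearMap.mk' (F Z) (hF.lin Z)

lemma iter_eq (hF : IsFrob F) (Z : 𝒱.Obj) (r : ℕ) (x : W.H Z) :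
    (F Z)^[r] x = ((frobLin hF Z) ^ r) x := by
  rw [Module.End.pow_apply]
  rfl

lemma iter_mul (hF : IsFrob F) {Z : 𝒱.Obj} (r : ℕ) (x y : W.H Z) :
    (F Z)^[r] (x * y) = (F Z)^[r] x * (F Z)^[r] y := by
  induction r generalizing x y with
  | zero => rfl
  | succ r ih =>
    rw [Function.iterate_succ_apply, Function.iterate_succ_apply, Function.iterate_succ_apply]
    have h1 : F Z (x * y) = F Z x * F Z y := hF.mul Z x y
    rw [h1, ih]

lemma fix_mul {Z : 𝒱.Obj} {r : ℕ} {x : W.H Z} (h : (F Z)^[r] x = x) (s : ℕ) :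
    (F Z)^[r * s] x = x :=
  Function.IsPeriodicPt.mul_const (show Function.IsPeriodicPt (F Z) r x from h) s

lemma fix_mul' {Z : 𝒱.Obj} {r : ℕ} {x : W.H Z} (h : (F Z)^[r] x = x) (s : ℕ) :
    (F Z)^[s * r] x = x := by
  rw [mul_comm]; exact fix_mul h s

/-- The Tate classes. -/
def tateF (hF : IsFrob F) : Family W := fun Z =>
  { carrier := {x | IsTateClass F x}
    zero_mem' := ⟨1, one_pos, by rw [iter_eq hF, map_zero]⟩
    add_mem' := by
      rintro a b ⟨r, hr, ha⟩ ⟨s, hs, hb⟩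
      refine ⟨r * s, Nat.mul_pos hr hs, ?_⟩
      rw [iter_eq hF, map_add, ← iter_eq hF, ← iter_eq hF, fix_mul ha, fix_mul' hb]
    smul_mem' := by
      rintro t a ⟨r, hr, ha⟩
      refine ⟨r, hr, ?_⟩
      rw [iter_eq hF, map_smul, ← iter_eq hF, ha] }

lemma alg_le_tate (hF : IsFrob F) (Z : 𝒱.Obj) : alg W Z ≤ tateF hF Z := by
  refine Submodule.span_le.2 ?_
  rintro _ ⟨j, z, hz, rfl⟩
  exact hF.cyc hz

lemma comm_iter {Z Z' : 𝒱.Obj} {g : W.H Z → W.H Z'} {r : ℕ}
    (h : ∀ x : W.H Z, (F Z')^[r] (g x) = g ((F Z)^[r] x)) (s : ℕ) (x : W.H Z) :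
    (F Z')^[r * s] (g x) = g ((F Z)^[r * s] x) := by
  induction s generalizing x with
  | zero => rfl
  | succ s ih =>
    rw [Nat.mul_succ, Function.iterate_add_apply, h, ih, Function.iterate_add_apply]

lemma tate_module (hF : IsFrob F) : IsModuleFamily (lef W) (tateF hF) where
  mul {X c d} hc hd := by
    obtain ⟨r, hr, hc⟩ := hc
    have h1 : d ∈ tateF hF X := by
      have h2 := lef_le X hd
      rw [← alg_eq] at h2
      exact alg_le_tate hF X h2
    obtain ⟨s, hs, hd⟩ := h1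
    refine ⟨r * s, Nat.mul_pos hr hs, ?_⟩
    change (F X)^[r * s] (c * d) = c * d
    rw [iter_mul hF, fix_mul hc, fix_mul' hd]
  pull {X Y} f c hc := by
    obtain ⟨r, hr, hc⟩ := hc
    obtain ⟨s, hs, h⟩ := hF.pull f
    refine ⟨s * r, Nat.mul_pos hs hr, ?_⟩
    rw [comm_iter h, fix_mul' hc]
  push {X Y} f c hc := by
    obtain ⟨r, hr, hc⟩ := hc
    obtain ⟨s, hs, h⟩ := hF.push f
    refine ⟨s * r, Nat.mul_pos hs hr, ?_⟩
    rw [comm_iter h, fix_mul' hc]

/-- **The law for Tate classes with Lefschetz classes.** -/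
theorem lef_law (hpush : ∀ {Y Z : 𝒱.Obj} (f : Y ⟶ Z) (c : W.H Y), Has (lef W) c →
    Has (lef W) (pf W f c)) (hF : IsFrob F) (X Y : 𝒱.Obj)
    (hX : ∀ n, IsNondeg (lef W) (pw X n)) (m : ℕ) :
    (∀ x : W.H (Y.prod (pw X m)), IsTateClass F x → Has (alg W) x) ∨
    ∀ n : ℕ, IndepMod (fun x : W.H (Y.prod (pw X n)) => IsTateClass F x) (alg W _)
      (gapBound (finrank W.K (W.H X)) (dimOn (lef W) (pw X n)) m n) := by
  by_cases h : alg W (Y.prod (pw X m)) = tateF hF (Y.prod (pw X m))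
  · left
    intro x hx
    unfold Has
    rw [h]
    exact hx
  · right
    intro n
    exact indep_of_finrank (N := tateF hF _) (alg_le_tate hF _)
      (fam_law (lef_ring hpush) alg_module (tate_module hF) (alg_le_tate hF) X Y hX m h n)

end Frob

end Pool.Agent.X312.FM
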