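import Pool.Agent.X312.FM.Lef
import Pool.Agent.X312.FM.CountDefs

/-!
# Lefschetz classes, algebraic classes, Galois invariant classes: gap law
-/

open CategoryTheory AlgebraicGeometry

universe u v

namespace Pool.Agent.X312.FM

open Module
open Pool.Agent.H914 Pool.Agent.H914.VarClass Pool.Agent.H914.VarClass.Obj
  Pool.Agent.H914.WeilCohomology Pool.Agent.Y133.Half Pool.Agent.Y133.Half.Sys
  Pool.Agent.X312.RL Pool.Agent.X312.FK Pool.Agent.H281R3.HT Pool.Agent.W536.RR

variable {k : Type u} [Field k] {𝒱 : VarClass k} {ops : CycleOps 𝒱}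
  {W : WeilCohomology.{u, v} ops} {G : Type v} {ρ : Operators W G}

lemma alg_le_inv (hρ : IsCompatible (lef W) ρ)
    (hcl : ∀ (Z : 𝒱.Obj) (j : ℕ) (z : Z.Cycles), Z.IsCyc j z → IsInvariant ρ (W.cl Z z))
    (Z : 𝒱.Obj) : alg W Z ≤ invF hρ Z := by
  refine Submodule.span_le.2 ?_
  rintro _ ⟨j, z, hz, rfl⟩
  exact hcl Z j z hz

lemma lef_le_alg (Z : 𝒱.Obj) : lef W Z ≤ alg W Z := by
  rw [alg_eq]; exact lef_le Z

/-- **The chain law with Lefschetz classes.** -/
theorem lef_chain (hpush : ∀ {Y Z : 𝒱.Obj} (f : Y ⟶ Z) (c : W.H Y), Has (lef W) c →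
    Has (lef W) (pf W f c)) (hρ : IsCompatible (lef W) ρ)
    (hcl : ∀ (Z : 𝒱.Obj) (j : ℕ) (z : Z.Cycles), Z.IsCyc j z → IsInvariant ρ (W.cl Z z))
    (X Y : 𝒱.Obj) (hX : ∀ n, IsNondeg (lef W) (pw X n)) (m n : ℕ) :
    IndepMod (fun x : W.H (Y.prod (pw X n)) => IsInvariant ρ x) (lef W _)
      ((oneIf (∃ x : W.H (Y.prod (pw X m)), Has (alg W) x ∧ ¬ Has (lef W) x) +
        oneIf (∃ x : W.H (Y.prod (pw X m)), IsInvariant ρ x ∧ ¬ Has (alg W) x)) *
        gapBound (finrank W.K (W.H X)) (dimOn (lef W) (pw X n)) m n) := by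
  set g := gapBound (finrank W.K (W.H X)) (dimOn (lef W) (pw X n)) m n with hg
  have h1 : (finrank W.K (lef W (Y.prod (pw X n))) : ℝ) +
      oneIf (∃ x : W.H (Y.prod (pw X m)), Has (alg W) x ∧ ¬ Has (lef W) x) * g ≤
      finrank W.K (alg W (Y.prod (pw X n))) := by
    unfold oneIf
    split_ifs with h
    · obtain ⟨x, hx, hx'⟩ := h
      have h2 := fam_law (lef_ring hpush) (self_module (lef_ring hpush)) alg_module lef_le_alg
        X Y hX m (fun h => hx' (by unfold Has; rw [h]; exact hx)) n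
      rw [one_mul]
      exact h2
    · rw [zero_mul, add_zero]
      exact_mod_cast Submodule.finrank_mono (lef_le_alg _)
  have h3 : (finrank W.K (alg W (Y.prod (pw X n))) : ℝ) +
      oneIf (∃ x : W.H (Y.prod (pw X m)), IsInvariant ρ x ∧ ¬ Has (alg W) x) * g ≤
      finrank W.K (invF hρ (Y.prod (pw X n))) := by
    unfold oneIf
    split_ifs with h
    · obtain ⟨x, hx, hx'⟩ := h
      have h2 := fam_law (lef_ring hpush) alg_module (invF_module hρ) (alg_le_inv hρ hcl)
        X Y hX m (fun h => hx' (by unfold Has; rw [h]; exact hx)) n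
      rw [one_mul]
      exact h2
    · rw [zero_mul, add_zero]
      exact_mod_cast Submodule.finrank_mono (alg_le_inv hρ hcl _)
  refine indep_of_finrank (N := invF hρ _)
    ((lef_le_alg _).trans (alg_le_inv hρ hcl _)) ?_
  linarith

end Pool.Agent.X312.FM
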