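import Pool.Agent.X312.RL.Fam
import Pool.Agent.X312.CH.AJ
import Pool.Agent.X312.FM.Defs

/-!
# Families of spaces of cohomology classes: gap laws
-/

open CategoryTheory AlgebraicGeometry

universe u v

namespace Pool.Agent.X312.FM

open Module
open Pool.Agent.H914 Pool.Agent.H914.VarClass Pool.Agent.H914.VarClass.Obj
  Pool.Agent.H914.WeilCohomology Pool.Agent.Y133.Half Pool.Agent.Y133.Half.Sys
  Pool.Agent.X312.RL Pool.Agent.X312.FK

variable {k : Type u} [Field k] {𝒱 : VarClass k} {ops : CycleOps 𝒱}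
  {W : WeilCohomology.{u, v} ops} {C : Family W}

/-- The system of classes. -/
def sysOf (hC : IsRingFamily C) : Sys W where
  C := C
  even {X c} hc := by
    have h1 : (⨆ j : ℕ, W.gr X (2 * j)) ≤ PH W X 0 :=
      iSup_le fun j => fun x hx => PH.of' (b := 0) (Nat.mul_mod_right 2 j) hx
    exact h1 (hC.even hc)
  one := hC.one
  mul {X c d} hc hd := hC.mul hc hd
  map {X Y} f {c} hc := hC.pull f hc
  push {X Y} f {c} hc := hC.push f hc

/-- The family in the other form. -/
def famOf (hC : IsRingFamily C) {N : Family W} (hN : IsModuleFamily C N) : Fam (sysOf hC) where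
  N := N
  map {X Y} f {c} hc := hN.pull f hc
  push {X Y} f {c} hc := hN.push f hc
  mul {X c d} hc hd := hN.mul hc hd

lemma self_module (hC : IsRingFamily C) : IsModuleFamily C C := ⟨hC.mul, hC.pull, hC.push⟩

lemma le_of_sub {A B : Family W} (h : IsSubfamily A B) (Z : 𝒱.Obj) : A Z ≤ B Z :=
  fun _ hc => h hc

lemma agree_iff {A B : Family W} {Z : 𝒱.Obj} : Agree A B Z ↔ A Z = B Z :=
  ⟨fun h => Submodule.ext h, fun h c => by unfold Has; rw [h]⟩

lemma num_bot (hC : IsRingFamily C) {Z : 𝒱.Obj} (h : IsNondeg C Z) : (sysOf hC).Num Z = ⊥ :=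
  num_eq_bot_of (S := sysOf hC) h

lemma a_eq (hC : IsRingFamily C) {Z : 𝒱.Obj} (h : IsNondeg C Z) : (sysOf hC).a Z = dimOn C Z :=
  a_eq_of (S := sysOf hC) h

/-- **The gap law for two families of spaces of classes.** -/
theorem fam_law (hC : IsRingFamily C) {A B : Family W} (hA : IsModuleFamily C A)
    (hB : IsModuleFamily C B) (hle : ∀ Z, A Z ≤ B Z) (X Y : 𝒱.Obj)
    (hX : ∀ n, IsNondeg C (pw X n)) (m : ℕ) (hne : A (Y.prod (pw X m)) ≠ B (Y.prod (pw X m)))
    (n : ℕ) :
    dimOn A (Y.prod (pw X n)) + gapBound (finrank W.K (W.H X)) (dimOn C (pw X n)) m n ≤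
      dimOn B (Y.prod (pw X n)) := by
  have h := Fam.rel' (famOf hC hA) (famOf hC hB) hle Y (m := m) hne n (num_bot hC (hX n))
  rw [a_eq hC (hX n)] at h
  have h4 : cst (finrank W.K (W.H X)) (m + 1) 2 n =
      4 * (m + 4) * (finrank W.K (W.H X) : ℝ) ^ (m + 6) * Real.log (n + 2) / (n + 1) := by
    unfold cst
    push_cast
    ring
  rw [h4] at h
  exact h

/-- The intersection of two families. -/
def infFam (A B : Family W) : Family W := fun Z => A Z ⊓ B Z

/-- The sum of two families. -/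
def supFam (A B : Family W) : Family W := fun Z => A Z ⊔ B Z

lemma inf_module {A B : Family W} (hA : IsModuleFamily C A) (hB : IsModuleFamily C B) :
    IsModuleFamily C (infFam A B) where
  mul hc hd := ⟨hA.mul hc.1 hd, hB.mul hc.2 hd⟩
  pull f _ hc := ⟨hA.pull f hc.1, hB.pull f hc.2⟩
  push f _ hc := ⟨hA.push f hc.1, hB.push f hc.2⟩

lemma sup_module {A B : Family W} (hA : IsModuleFamily C A) (hB : IsModuleFamily C B) :
    IsModuleFamily C (supFam A B) where
  mul {X c d} hc hd := by
    obtain ⟨a, ha, b, hb, rfl⟩ := Submodule.mem_sup.1 hc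
    have h1 : cup W (a + b) d = cup W a d + cup W b d := add_mul a b d
    rw [h1]
    exact Submodule.add_mem_sup (hA.mul ha hd) (hB.mul hb hd)
  pull {X Y} f c hc := by
    obtain ⟨a, ha, b, hb, rfl⟩ := Submodule.mem_sup.1 hc
    have h1 : pb W f (a + b) = pb W f a + pb W f b := map_add _ a b
    rw [h1]
    exact Submodule.add_mem_sup (hA.pull f ha) (hB.pull f hb)
  push {X Y} f c hc := by
    obtain ⟨a, ha, b, hb, rfl⟩ := Submodule.mem_sup.1 hc
    have h1 : pf W f (a + b) = pf W f a + pf W f b := map_add _ a b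
    rw [h1]
    exact Submodule.add_mem_sup (hA.push f ha) (hB.push f hb)

/-- **The law for the equality of two families.** -/
theorem eq_law (hC : IsRingFamily C) {A B : Family W} (hA : IsModuleFamily C A)
    (hB : IsModuleFamily C B) (X Y : 𝒱.Obj) (hX : ∀ n, IsNondeg C (pw X n)) (m : ℕ) :
    Agree A B (Y.prod (pw X m)) ∨
    ∀ n : ℕ, finrank W.K (A (Y.prod (pw X n)) ⊓ B (Y.prod (pw X n)) :
        Submodule W.K (W.H (Y.prod (pw X n)))) +
      gapBound (finrank W.K (W.H X)) (dimOn C (pw X n)) m n ≤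
      finrank W.K (A (Y.prod (pw X n)) ⊔ B (Y.prod (pw X n)) :
        Submodule W.K (W.H (Y.prod (pw X n)))) := by
  by_cases h : A (Y.prod (pw X m)) = B (Y.prod (pw X m))
  · exact Or.inl (agree_iff.2 h)
  · right
    intro n
    refine fam_law hC (inf_module hA hB) (sup_module hA hB) (fun Z => inf_le_sup) X Y hX m
      (fun h' => h ?_) n
    exact le_antisymm (le_sup_left.trans (h'.ge.trans inf_le_right))
      (le_sup_right.trans (h'.ge.trans inf_le_left))

end Pool.Agent.X312.FM
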