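import Pool.Agent.X312.FM.Main

/-!
# Algebraic classes, classes of a ring family, classes of a module family: gap laws
-/

open CategoryTheory AlgebraicGeometry

universe u v

namespace Pool.Agent.X312.FM

open Module
open Pool.Agent.H914 Pool.Agent.H914.VarClass Pool.Agent.H914.VarClass.Obj
  Pool.Agent.H914.WeilCohomology Pool.Agent.Y133.Half Pool.Agent.Y133.Half.Sys
  Pool.Agent.X312.RL Pool.Agent.H281R3.HT Pool.Agent.W536.RR

variable {k : Type u} [Field k] {𝒱 : VarClass k} {ops : CycleOps 𝒱}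
  {W : WeilCohomology.{u, v} ops} {M D : Family W}

lemma rank_le (hM : IsRingFamily M)
    (hcl : ∀ (Z : 𝒱.Obj) (j : ℕ) (z : Z.Cycles), Z.IsCyc j z → Has M (W.cl Z z)) (Z : 𝒱.Obj) :
    (cycRank ops Z : ℝ) ≤ dimOn M Z := by
  have h1 : (algSys W).C Z ≤ (sysOf hM).C Z := by
    intro c hc
    refine algSpan_induction (p := fun c => c ∈ M Z) ?_ ?_ ?_ ?_ hc
    · exact Submodule.zero_mem _
    · intro a b ha hb; exact Submodule.add_mem _ ha hb
    · intro t a ha; exact Submodule.smul_mem _ _ ha
    · intro j z hz; exact hcl Z j z hz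
  have h2 : cycRank ops Z = (algSys W).a Z := (numDim_eq_cycRank W Z).symm
  rw [h2]
  have h3 := (algSys W).a_add_num Z
  have h4 : finrank W.K ((algSys W).C Z) ≤ finrank W.K (M Z) := Submodule.finrank_mono h1
  rw [← h3] at h4
  unfold dimOn
  exact_mod_cast (Nat.le_add_right _ _).trans h4

/-- **The laws for the two inclusions.** -/
theorem per_law (hM : IsRingFamily M)
    (hcl : ∀ (Z : 𝒱.Obj) (j : ℕ) (z : Z.Cycles), Z.IsCyc j z → Has M (W.cl Z z))
    (hD : IsModuleFamily M D) (hle : IsSubfamily M D) (X Y : 𝒱.Obj)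
    (hX : ∀ n, IsNondeg M (pw X n)) (m : ℕ) :
    (((∀ c : W.H (Y.prod (pw X m)), Has M c → c ∈ algSpan W (Y.prod (pw X m))) ∧
        HomEqNum W (Y.prod (pw X m))) ∨
      ∀ n : ℕ, cycRank ops (Y.prod (pw X n)) +
        gapBound (finrank W.K (W.H X)) (cycRank ops (pw X n)) m n ≤
          dimOn M (Y.prod (pw X n))) ∧
    (Agree D M (Y.prod (pw X m)) ∨
      ∀ n : ℕ, dimOn M (Y.prod (pw X n)) +
        gapBound (finrank W.K (W.H X)) (dimOn M (pw X n)) m n ≤ dimOn D (Y.prod (pw X n))) := by
  have hST : ∀ Z, (algSys W).C Z ≤ (sysOf hM).C Z := by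
    intro Z c hc
    refine algSpan_induction (p := fun c => c ∈ M Z) ?_ ?_ ?_ ?_ hc
    · exact Submodule.zero_mem _
    · intro a b ha hb; exact Submodule.add_mem _ ha hb
    · intro t a ha; exact Submodule.smul_mem _ _ ha
    · intro j z hz; exact hcl Z j z hz
  refine ⟨?_, ?_⟩
  · by_cases hne : (algSys W).C (Y.prod (pw X m)) ≠ (sysOf hM).C (Y.prod (pw X m)) ∨
      (algSys W).Num (Y.prod (pw X m)) ≠ ⊥
    · right
      intro n
      have h := full_rel (S := algSys W) (T := sysOf hM) hST Y hne n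
      rw [numDim_eq_cycRank, numDim_eq_cycRank] at h
      have h4 : cst (finrank W.K (W.H X)) (m + 1) 2 n =
          4 * (m + 4) * (finrank W.K (W.H X) : ℝ) ^ (m + 6) * Real.log (n + 2) / (n + 1) := by
        unfold cst
        push_cast
        ring
      rw [h4] at h
      exact h
    · left
      push Not at hne
      refine ⟨fun c hc => ?_, (alg_num_eq_bot_iff _).1 hne.2⟩
      have h1 : c ∈ (sysOf hM).C (Y.prod (pw X m)) := hc
      rw [← hne.1] at h1
      exact h1
  · by_cases h : M (Y.prod (pw X m)) = D (Y.prod (pw X m))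
    · left
      exact agree_iff.2 h.symm
    · right
      intro n
      exact fam_law hM (self_module hM) hD (le_of_sub hle) X Y hX m h n

end Pool.Agent.X312.FM
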