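import Pool.Agent.X312.FM.RatDefs
import Pool.Agent.X312.FC.PrimLaw
import Pool.Agent.X312.MR.Law

/-!
# Rational classes: the gap law
-/

open CategoryTheory AlgebraicGeometry

universe u v

namespace Pool.Agent.X312.FM

open Module
open Pool.Agent.H914 Pool.Agent.H914.VarClass Pool.Agent.H914.VarClass.Obj
  Pool.Agent.H914.WeilCohomology Pool.Agent.Y133.Half Pool.Agent.Y133.Half.Sys
  Pool.Agent.H281R3.HT Pool.Agent.W536.RR Pool.Agent.X312.RL Pool.Agent.X312.DR
open Pool.Agent.X312.FK (composite diagClass pf pb cup unitClass IrreducibleIn)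
open Pool.Agent.X312.FC (corrRank rankBound CorrData StableC irr_fun_law)
open Pool.Agent.X312.MR (hData hData_isFunctor)

variable {k : Type u} [Field k] {𝒱 : VarClass k} {ops : CycleOps 𝒱}
  {W : WeilCohomology.{u, v} ops} {X Y Z P : 𝒱.Obj} {C N : Family W}
  {Q : ∀ Z : 𝒱.Obj, Set (W.H Z)}

lemma corr_cup (hC : IsRingFamily C) {c : W.H (X.prod Y)} (hc : Has C c) (x : W.H X) :
    W.corr c x = pf W (snd X Y) (cup W (pb W (fst X Y) x) c) := by
  have e1 : ∀ y : W.H (X.prod Y), c * y = y * c := fun y =>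
    PH.even_comm ((sysOf hC).even hc) y
  rw [corr_apply, e1]
  rfl

lemma mod_stable (hC : IsRingFamily C) (hN : IsModuleFamily C N) : StableC C (hData W) N := by
  intro Z Z' c hc x hx
  change W.corr c x ∈ N Z'
  rw [corr_cup hC hc]
  exact hN.push _ (hN.mul (hN.pull _ hx) hc)

lemma rat_stable (hC : IsRingFamily C) (hQ : IsRationalStructure C Q)
    (hN : IsModuleFamily C N) : StableC C (hData W) (rationalPart Q N) := by
  intro Z Z' c hc x hx
  change W.corr c x ∈ rationalPart Q N Z'
  have h1 := hQ.span hc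
  have key : ∀ c' : W.H (Z.prod Z'), c' ∈ Q _ → Has C c' → ∀ y ∈ rationalPart Q N Z,
      W.corr c' y ∈ rationalPart Q N Z' := by
    intro c' hc'Q hc' y hy
    refine Submodule.span_induction (p := fun y _ => W.corr c' y ∈ rationalPart Q N Z')
      ?_ ?_ ?_ ?_ hy
    · rintro y ⟨hyQ, hyN⟩
      refine Submodule.subset_span ⟨?_, ?_⟩
      · rw [corr_cup hC hc']
        exact hQ.push _ (hQ.mul (hQ.pull _ hyQ) hc'Q)
      · exact mod_stable hC hN Z Z' c' hc' y hyN
    · rw [map_zero]; exact Submodule.zero_mem _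
    · intro a b _ _ ha hb
      rw [map_add]; exact Submodule.add_mem _ ha hb
    · intro t a _ ha
      rw [map_smul]; exact Submodule.smul_mem _ _ ha
  refine Submodule.span_induction (p := fun c _ => W.corr c x ∈ rationalPart Q N Z')
    ?_ ?_ ?_ ?_ h1
  · rintro c' ⟨hc'Q, hc'⟩
    exact key c' hc'Q hc' x hx
  · rw [corr_zero]; exact Submodule.zero_mem _
  · intro a b _ _ ha hb
    rw [corr_add]; exact Submodule.add_mem _ ha hb
  · intro t a _ ha
    rw [corr_smul]; exact Submodule.smul_mem _ _ ha

lemma rat_le (Z : 𝒱.Obj) : rationalPart Q N Z ≤ N Z :=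
  Submodule.span_le.2 fun _ hx => hx.2

/-- From independence modulo a subspace to dimensions. -/
lemma dim_of_indep {M : Type v} [AddCommGroup M] [Module W.K M] [FiniteDimensional W.K M]
    {A B : Submodule W.K M} (hle : A ≤ B) {x : ℝ}
    (h : Pool.Agent.X312.FK.IndepMod (B : Set M) A x) :
    finrank W.K A + x ≤ finrank W.K B := by
  obtain ⟨r, a, h1, h2, h3⟩ := h
  have h4 : r ≤ finrank W.K (B.map A.mkQ) := by
    have h5 : LinearIndependent W.K (fun i => (⟨A.mkQ (a i), a i, h3 i, rfl⟩ : B.map A.mkQ)) := by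
      refine LinearIndependent.of_comp (Submodule.subtype _) ?_
      exact h2
    have h6 := h5.fintype_card_le_finrank
    rwa [Fintype.card_fin] at h6
  have hr7 : finrank W.K (B.map A.mkQ) + finrank W.K A = finrank W.K B := by
    have h1 := LinearMap.finrank_range_add_finrank_ker (A.mkQ.domRestrict B)
    rw [LinearMap.range_domRestrict] at h1
    rw [← h1]
    congr 1
    have h2 : LinearMap.ker (A.mkQ.domRestrict B) = A.submoduleOf B := by
      ext x
      simp [Submodule.submoduleOf]
    rw [h2]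
    exact (Submodule.submoduleOfEquivOfLe hle).finrank_eq.symm
  have h8 : (r : ℝ) ≤ finrank W.K (B.map A.mkQ) := by exact_mod_cast h4
  have h9 : (finrank W.K (B.map A.mkQ) : ℝ) + finrank W.K A = finrank W.K B := by
    exact_mod_cast hr7
  linarith

/-- **The gap law for the rationality of the classes of a family.** -/
theorem rat_law (hC : IsRingFamily C) (hQ : IsRationalStructure C Q) (hN : IsModuleFamily C N)
    (X : 𝒱.Obj) (hX : ∀ n, IsNondeg C (pw X n)) {m : ℕ} {e : W.H ((pw X m).prod (pw X m))}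
    (he : Has C e) (hee : composite W e e = e) (hirr : IrreducibleIn (Has C) e) :
    (∀ x : W.H (pw X m), Has N x → Has (rationalPart Q N) (W.corr e x)) ∨
    ∀ n : ℕ, dimOn (rationalPart Q N) (pw X n) +
      rankBound (corrRank e) (finrank W.K (W.H X)) (dimOn C (pw X n)) m n ≤
      dimOn N (pw X n) := by
  rcases irr_fun_law hC (hData_isFunctor hC) (rat_stable hC hQ hN) (mod_stable hC hN) X hX
    he hee hirr with h | h
  · exact Or.inl fun x hx => h x hx
  · exact Or.inr fun n => dim_of_indep (rat_le _) (h n)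

end Pool.Agent.X312.FM
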