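import Pool.Agent.X312.FM.Defs

/-!
# Rational classes: definitions
-/

open CategoryTheory AlgebraicGeometry

universe u v

namespace Pool.Agent.X312.FM

open Pool.Agent.H914 Pool.Agent.H914.VarClass Pool.Agent.H914.VarClass.Obj
  Pool.Agent.H914.WeilCohomology Pool.Agent.X312.FK

variable {k : Type u} [Field k] {𝒱 : VarClass k} {ops : CycleOps 𝒱}
  {W : WeilCohomology.{u, v} ops}

/-- The sets `Q Z` of rational classes are stable under products, pull-backs and push-forwards, and the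
spaces `C Z` are generated by rational classes. -/
structure IsRationalStructure (C : Family W) (Q : ∀ Z : 𝒱.Obj, Set (W.H Z)) : Prop where
  mul : ∀ {X : 𝒱.Obj} {c d : W.H X}, c ∈ Q X → d ∈ Q X → cup W c d ∈ Q X
  pull : ∀ {X Y : 𝒱.Obj} (f : X ⟶ Y) {c : W.H Y}, c ∈ Q Y → pb W f c ∈ Q X
  push : ∀ {X Y : 𝒱.Obj} (f : X ⟶ Y) {c : W.H X}, c ∈ Q X → pf W f c ∈ Q Y
  span : ∀ {X : 𝒱.Obj} {c : W.H X}, Has C c → c ∈ Submodule.span W.K {x | x ∈ Q X ∧ Has C x}

/-- The subspace of `N Z` generated by the rational classes in `N Z`. -/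
def rationalPart (Q : ∀ Z : 𝒱.Obj, Set (W.H Z)) (N : Family W) : Family W :=
  fun Z => Submodule.span W.K {x | x ∈ Q Z ∧ Has N x}

end Pool.Agent.X312.FM
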