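import Mathlib

/-!
# The bound of the ratio law
-/

namespace Pool.Agent.X312.FM

/-- The number `(D - 8 (m + 3) b ^ (m + 5) log (n + 1) / n) ρ`, with `m` and `n` replaced by `m + 1` and
`n + 1`. -/
noncomputable def ratioBound (D b ρ m n : ℕ) : ℝ :=
  (D - 8 * (m + 4) * (b : ℝ) ^ (m + 6) * Real.log (n + 2) / (n + 1)) * ρ

end Pool.Agent.X312.FM
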