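import Pool.Agent.X312.DR.Ratio
import Pool.Agent.X312.FM.SplitDefs
import Pool.Agent.X312.FK.PrimDefs
import Pool.Agent.X312.FC.Rank

/-!
# Two ring families: the ratio law
-/

open CategoryTheory AlgebraicGeometry

universe u v

namespace Pool.Agent.X312.FM

open Module
open Pool.Agent.H914 Pool.Agent.H914.VarClass Pool.Agent.H914.VarClass.Obj
  Pool.Agent.H914.WeilCohomology Pool.Agent.Y133.Half Pool.Agent.Y133.Half.Sys
  Pool.Agent.H281R3.HT Pool.Agent.W536.RR Pool.Agent.X312.RL Pool.Agent.X312.DR
open Pool.Agent.X312.FK (composite diagClass pf pb cup unitClass IrreducibleIn)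
open Pool.Agent.X312.FC (corrRank)

variable {k : Type u} [Field k] {𝒱 : VarClass k} {ops : CycleOps 𝒱}
  {W : WeilCohomology.{u, v} ops} {X Y Z P : 𝒱.Obj} {C C' : Family W}

lemma corr_composite (hC : IsRingFamily C) {a b : W.H (P.prod P)} (hb : Has C b) :
    W.corr (composite W a b) = W.corr b ∘ₗ W.corr a := by
  rw [composite, pf, cup, pb, pb]
  exact corr_comp' _ ((sysOf hC).even hb)

lemma prim_of_irr (hC : IsRingFamily C) {e : W.H (P.prod P)} (he : Has C e)
    (hirr : IrreducibleIn (Has C) e) : PrimOp (sysOf hC) (W.corr e) := by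
  intro α hα hαα h1 h2
  obtain ⟨c, hc, rfl⟩ := mem_Op.1 hα
  have hc' : Has C c := hc
  rcases hirr c hc' (corrL_injective _ _ ((corr_composite hC hc').trans hαα))
    (corrL_injective _ _ ((corr_composite hC hc').trans h2))
    (corrL_injective _ _ ((corr_composite hC he).trans h1)) with h | h
  · left
    rw [h, corr_zero]
  · right
    rw [h]

/-- **The ratio law for ring families.** -/
theorem split_law (hC : IsRingFamily C) (hC' : IsRingFamily C') (hle : IsSubfamily C C')
    (X : 𝒱.Obj) (hX : ∀ n, IsNondeg C (pw X n)) (hX' : ∀ n, IsNondeg C' (pw X n)) {m : ℕ}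
    {e f : W.H ((pw X m).prod (pw X m))} (he : Has C e) (hee : composite W e e = e)
    (hirr : IrreducibleIn (Has C) e) (hf : Has C' f) (hff : composite W f f = f)
    (hef : composite W e f = f) (h0 : f ≠ 0) (n : ℕ) :
    ratioBound (corrRank e) (finrank W.K (W.H X)) (dimOn C (pw X n)) m n ≤
      corrRank f * dimOn C' (pw X n) := by
  have hST : ∀ Z, (sysOf hC).C Z ≤ (sysOf hC').C Z := fun Z c hc => hle hc
  have hS : ∀ n, Nondeg (sysOf hC) (pw X n) := fun n =>
    nondeg_iff.2 ((a_eq hC (hX n)).trans rfl)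
  have hT : ∀ n, Nondeg (sysOf hC') (pw X n) := fun n =>
    nondeg_iff.2 ((a_eq hC' (hX' n)).trans rfl)
  have key := ratio_law (S := sysOf hC) (T := sysOf hC') hST hS hT (m := m)
    (γ := W.corr e) (γ' := W.corr f) (Op.corr he) ((corr_composite hC he).symm.trans (by rw [hee]))
    (prim_of_irr hC he hirr) (Op.corr hf) ((corr_composite hC' hf).symm.trans (by rw [hff]))
    ((corr_composite hC' hf).symm.trans (by rw [hef]))
    (fun h => h0 (corrL_injective _ _ (by
      change W.corr f = W.corr 0
      rw [corr_zero]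
      exact h))) n
  rw [a_eq hC (hX n), a_eq hC' (hX' n)] at key
  have h4 : 2 * cst (finrank W.K (W.H X)) (m + 1) 2 n =
      8 * (m + 4) * (finrank W.K (W.H X) : ℝ) ^ (m + 6) * Real.log (n + 2) / (n + 1) := by
    unfold cst
    push_cast
    ring
  rw [h4] at key
  exact key

end Pool.Agent.X312.FM
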